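import Pool.Agent.Helper2.RG.St

/-!
# Project RG (MP_76188c_nt), module GOODB (helper42)
-/

open scoped Pointwise NumberField
open NumberField Pool.RG

namespace Pool.Agent.Helper42.RG

private theorem isAlgClG : IsAlgClosure ℚ Qb := by
  have h : ∀ A B : Algebra ℚ Qb, A = B := fun A B => Subsingleton.elim _ _
  rw [h (DivisionRing.toRatAlgebra) (AlgebraicClosure.instAlgebra (k := ℚ) (R := ℚ))]
  infer_instance

private theorem isGalG : IsGalois ℚ Qb := by
  have := isAlgClG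
  exact IsAlgClosure.isGalois ℚ Qb

private theorem ratG (x : Qb) (h : ∀ g : GQ, g x = x) : ∃ q : ℚ, algebraMap ℚ Qb q = x := by
  have := isGalG
  have hx : x ∈ (⊥ : IntermediateField ℚ Qb) := by
    rw [← InfiniteGalois.fixedField_fixingSubgroup (⊥ : IntermediateField ℚ Qb),
      IntermediateField.mem_fixedField_iff]
    intro f _
    exact h f
  exact IntermediateField.mem_bot.1 hx

private theorem ratIntG (q : ℚ) (x : 𝓞 Qb) (h : algebraMap ℚ Qb q = (x : Qb)) :
    ∃ n : ℤ, (n : ℚ) = q := by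
  have hint : IsIntegral ℤ q := by
    rw [← isIntegral_algebraMap_iff (algebraMap ℚ Qb).injective, h]
    exact RingOfIntegers.isIntegral_coe x
  obtain ⟨n, hn⟩ := IsIntegrallyClosed.isIntegral_iff.1 hint
  exact ⟨n, by simpa using hn⟩

private theorem intG (x : 𝓞 Qb) (h : ∀ g : GQ, g • x = x) : ∃ n : ℤ, (n : 𝓞 Qb) = x := by
  obtain ⟨q, hq⟩ := ratG (x : Qb) (fun g => by
    have := congrArg (fun y : 𝓞 Qb => (y : Qb)) (h g)
    exact this)
  obtain ⟨n, hn⟩ := ratIntG q x hq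
  refine ⟨n, ?_⟩
  apply RingOfIntegers.ext
  rw [← hq, ← hn]
  simp

private theorem sqfG (r : ℚ) (hr : r ≠ 0) :
    ∃ (q : ℚ) (d : ℤ), q ≠ 0 ∧ Squarefree d ∧ r = q ^ 2 * d := by
  obtain ⟨e, c, hce, he⟩ := Nat.sq_mul_squarefree (r.num * r.den).natAbs
  have hden : (r.den : ℚ) ≠ 0 := by exact_mod_cast r.den_ne_zero
  have hnum : r.num ≠ 0 := Rat.num_ne_zero.2 hr
  have hr' : r = (r.num : ℚ) / r.den := (Rat.num_div_den r).symm
  have hc : c ≠ 0 := by
    rintro rfl
    have : (r.num * r.den).natAbs = 0 := by rw [← hce]; simp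
    rw [Int.natAbs_eq_zero] at this
    rcases mul_eq_zero.1 this with h | h
    · exact hnum h
    · exact r.den_ne_zero (by exact_mod_cast h)
  have hq : (c : ℚ) / r.den ≠ 0 := div_ne_zero (by exact_mod_cast hc) hden
  have heq : ∀ D : ℤ, r.num * r.den = (c : ℤ) ^ 2 * D → r = ((c : ℚ) / r.den) ^ 2 * D := by
    intro D hD
    have hD' : (r.num : ℚ) * r.den = (c : ℚ) ^ 2 * D := by exact_mod_cast hD
    rw [div_pow, div_mul_eq_mul_div, ← hD', eq_div_iff (pow_ne_zero 2 hden)]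
    have h5 : r * (r.den : ℚ) = r.num := Rat.mul_den_eq_num r
    calc r * (r.den : ℚ) ^ 2 = (r * r.den) * r.den := by ring
      _ = (r.num : ℚ) * r.den := by rw [h5]
  rcases Int.natAbs_eq (r.num * r.den) with h | h
  · refine ⟨c / r.den, e, hq, ?_, heq _ ?_⟩
    · rw [← Int.squarefree_natAbs]; simpa using he
    · rw [h, ← hce]; push_cast; ring
  · refine ⟨c / r.den, -e, hq, ?_, heq _ ?_⟩
    · rw [← Int.squarefree_natAbs]; simpa using he
    · rw [h, ← hce]; push_cast; ring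

private theorem zintG (z : ℚ) (d k : ℤ) (hd : Squarefree d) (h : z ^ 2 * d = k) :
    ∃ m : ℤ, z = m := by
  have hden : (z.den : ℚ) ≠ 0 := by exact_mod_cast z.den_ne_zero
  have h1 : (z.num : ℚ) ^ 2 * d = k * (z.den : ℚ) ^ 2 := by
    rw [← h, ← Rat.mul_den_eq_num z]
    ring
  have h2 : z.num ^ 2 * d = k * (z.den : ℤ) ^ 2 := by exact_mod_cast h1
  have hcop : IsCoprime ((z.den : ℤ) * z.den) (z.num ^ 2) := by
    have : IsCoprime (z.den : ℤ) z.num := by
      rw [Int.isCoprime_iff_gcd_eq_one]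
      have := z.reduced
      rw [Nat.Coprime] at this
      rw [Int.gcd_comm]
      simpa [Int.gcd] using this
    exact (this.mul_left this).pow_right
  have h3 : (z.den : ℤ) * z.den ∣ d := by
    apply hcop.dvd_of_dvd_mul_left
    rw [h2]
    exact ⟨k, by ring⟩
  have h4 := hd _ h3
  have h5 : z.den = 1 := by
    have := Int.isUnit_iff.1 h4
    omega
  exact ⟨z.num, by rw [← Rat.num_div_den z]; simp [h5]⟩

private theorem exPG (q : ℕ) (hq : q.Prime) : ∃ P : Ideal (𝓞 Qb), P.IsMaximal ∧ (q : 𝓞 Qb) ∈ P := by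
  have hne : Ideal.span {(q : 𝓞 Qb)} ≠ ⊤ := by
    intro h
    rw [Ideal.span_singleton_eq_top] at h
    obtain ⟨y, hy⟩ := h.exists_right_inv
    have hy' : (q : Qb) * (y : Qb) = 1 := by
      have := congrArg (fun y : 𝓞 Qb => (y : Qb)) hy
      simpa using this
    have hq0 : (q : Qb) ≠ 0 := by exact_mod_cast hq.ne_zero
    have : algebraMap ℚ Qb ((q : ℚ)⁻¹) = (y : Qb) := by
      rw [map_inv₀, map_natCast, inv_eq_of_mul_eq_one_right hy']
    obtain ⟨n, hn⟩ := ratIntG _ y this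
    have hq1 : (q : ℚ) ≠ 0 := by exact_mod_cast hq.ne_zero
    have h2 : (n : ℚ) * q = 1 := by rw [hn, inv_mul_cancel₀ hq1]
    have h3 : n * q = 1 := by exact_mod_cast h2
    have h4 : (q : ℤ) ∣ 1 := ⟨n, by rw [mul_comm, h3]⟩
    have h5 : q ∣ 1 := by exact_mod_cast h4
    exact hq.one_lt.ne' (Nat.dvd_one.1 h5)
  obtain ⟨P, hP, hle⟩ := Ideal.exists_le_maximal _ hne
  exact ⟨P, hP, hle (Ideal.subset_span rfl)⟩

private theorem copG (P : Ideal (𝓞 Qb)) (hP : P.IsMaximal) (a b : ℤ) (hab : IsCoprime a b)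
    (ha : (a : 𝓞 Qb) ∈ P) (hb : (b : 𝓞 Qb) ∈ P) : False := by
  obtain ⟨u, v, huv⟩ := hab
  apply hP.ne_top
  rw [Ideal.eq_top_iff_one]
  have : (1 : 𝓞 Qb) = (u : 𝓞 Qb) * a + v * b := by
    rw [← Int.cast_mul, ← Int.cast_mul, ← Int.cast_add, huv, Int.cast_one]
  rw [this]
  exact P.add_mem (P.mul_mem_left _ ha) (P.mul_mem_left _ hb)

private theorem dmodG (S : Finset ℕ) (hS : S = ∅ ∨ ∃ p : ℕ, p.Prime ∧ (p % 8 = 3 ∨ p % 8 = 5) ∧ S = {p})
    (d : ℤ) (hd : Squarefree d) (hd1 : d ≠ 1) (h : ∀ q : ℕ, q.Prime → q ≠ 2 → (q : ℤ) ∣ d → q ∈ S) :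
    d % 8 ≠ 1 := by
  intro h8
  have hsq : Squarefree d.natAbs := Int.squarefree_natAbs.2 hd
  have hodd : ∀ q : ℕ, q.Prime → q ∣ d.natAbs → q ∈ S := by
    intro q hq hqd
    have hqd' : (q : ℤ) ∣ d := Int.natCast_dvd.2 hqd
    apply h q hq _ hqd'
    rintro rfl
    omega
  by_cases h1 : d.natAbs = 1
  · rcases Int.natAbs_eq d with h2 | h2
    · rw [h1] at h2; exact hd1 (by simpa using h2)
    · rw [h1] at h2; rw [h2] at h8; norm_num at h8
  obtain ⟨q, hq, hqd⟩ := Nat.exists_prime_and_dvd h1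
  have hqS := hodd q hq hqd
  rcases hS with hS | ⟨p, hp, hp8, hS⟩
  · rw [hS] at hqS; simp at hqS
  · rw [hS] at hqS
    have hqp : q = p := by simpa using hqS
    subst hqp
    obtain ⟨e, he⟩ := hqd
    have he1 : e = 1 := by
      by_contra hne
      obtain ⟨r, hr, hre⟩ := Nat.exists_prime_and_dvd hne
      have hrS := hodd r hr (he ▸ dvd_mul_of_dvd_right hre q)
      rw [hS] at hrS
      have hrq : r = q := by simpa using hrS
      subst hrq
      have : r * r ∣ d.natAbs := by rw [he]; exact Nat.mul_dvd_mul_left r hre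
      have := hsq r this
      exact hr.one_lt.ne' (Nat.isUnit_iff.1 this)
    rw [he1, mul_one] at he
    rcases Int.natAbs_eq d with h2 | h2 <;> rw [he] at h2 <;> omega

private theorem mod8G (d m t n : ℤ) (h : t ^ 2 - 4 * n = d * m ^ 2) (hn : Even n) (ht : ¬ Even t) :
    d % 8 = 1 := by
  obtain ⟨b, hb⟩ := hn
  rw [Int.not_even_iff_odd] at ht
  obtain ⟨a, ha⟩ := ht
  have e1 : ∀ a : ZMod 8, (2 * a + 1) ^ 2 = 1 := by decide
  have e2 : ∀ d m : ZMod 8, 1 = d * m ^ 2 → d = 1 := by decide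
  have e3 : ∀ b : ZMod 8, 4 * (b + b) = 0 := by decide
  have h1 : (((t ^ 2 - 4 * n : ℤ)) : ZMod 8) = ((d * m ^ 2 : ℤ) : ZMod 8) := by rw [h]
  rw [ha, hb] at h1
  push_cast at h1
  rw [e1, e3, sub_zero] at h1
  have h2 := e2 _ _ h1
  have h3 : ((d : ℤ) : ZMod 8) = ((1 : ℤ) : ZMod 8) := by rw [h2]; simp
  have h4 := (ZMod.intCast_eq_intCast_iff d 1 8).1 h3
  simpa [Int.ModEq] using h4

theorem tGoodB (hP : StProf) (hL : StLift) (hC : StConj) : StGoodB := by
  intro l S F P0 hP0 hl hB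
  obtain ⟨hl2, hF, hS⟩ := hB
  subst hl2
  subst hF
  intro N hNF hNn hNo hNi hNr hD
  have hgal := isGalG
  have hGF : GF (⊥ : IntermediateField ℚ Qb) = ⊤ := IntermediateField.fixingSubgroup_bot
  have hmem : ∀ g : GQ, g ∈ GF (⊥ : IntermediateField ℚ Qb) := fun g => by rw [hGF]; trivial
  have hidx : N.index = 2 := by
    rw [hGF, Subgroup.relIndex_top_right] at hNi; exact hNi
  have hNc : IsClosed (N : Set GQ) := Subgroup.isClosed_of_isOpen N hNo
  have hLN : GF (IntermediateField.fixedField N) = N :=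
    InfiniteGalois.fixingSubgroup_fixedField ⟨N, hNc⟩
  generalize hLdef : IntermediateField.fixedField N = L at hLN
  have hfixL : ∀ y : Qb, y ∈ L ↔ ∀ n ∈ N, n y = y := by
    intro y
    rw [← hLdef, IntermediateField.mem_fixedField_iff]
  obtain ⟨s, hs⟩ : ∃ s, s ∉ N := by
    by_contra h
    push Not at h
    have : N = ⊤ := by rw [eq_top_iff]; intro g _; exact h g
    rw [this, Subgroup.index_top] at hidx
    omega
  have hss : s * s ∈ N := Subgroup.mul_self_mem_of_index_two hidx s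
  have hssL : ∀ y ∈ L, s (s y) = y := fun y hy => (hfixL y).1 hy _ hss
  have hsL : ∀ y ∈ L, s y ∈ L := by
    intro y hy
    rw [hfixL]
    intro n hn
    have h1 : s⁻¹ * n * s⁻¹⁻¹ ∈ N := hNn s⁻¹ (hmem _) n hn
    rw [inv_inv] at h1
    have h2 : (s⁻¹ * n * s) y = y := (hfixL y).1 hy _ h1
    have h3 : s ((s⁻¹ * n * s) y) = n (s y) := by
      rw [← AlgEquiv.mul_apply, ← AlgEquiv.mul_apply]
      congr 1
      group
    rw [← h3, h2]
  have hall : ∀ y ∈ L, s y = y → ∀ g : GQ, g y = y := by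
    intro y hy hsy g
    by_cases hg : g ∈ N
    · exact (hfixL y).1 hy g hg
    · have hsg : s * g ∈ N := by
        rw [Subgroup.mul_mem_iff_of_index_two hidx]
        exact ⟨fun h => absurd h hs, fun h => absurd h hg⟩
      have h1 : (s * g) y = y := (hfixL y).1 hy _ hsg
      have h2 : s (g y) = y := h1
      have h3 : s (g y) = s y := by rw [h2, hsy]
      exact s.injective h3
  obtain ⟨x, hxL, hxs⟩ : ∃ x ∈ L, s x ≠ x := by
    by_contra h
    push Not at h
    apply hs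
    rw [← hLN]
    exact (IntermediateField.mem_fixingSubgroup_iff _ _).2 h
  -- the element u
  have huL : x - s x ∈ L := L.sub_mem hxL (hsL x hxL)
  have hus : s (x - s x) = -(x - s x) := by rw [map_sub, hssL x hxL]; ring
  have hu0 : x - s x ≠ 0 := fun h => hxs (sub_eq_zero.1 h).symm
  generalize x - s x = u at huL hus hu0
  obtain ⟨r, hr⟩ := ratG (u * u) (hall (u * u) (L.mul_mem huL huL) (by rw [map_mul, hus]; ring))
  have hr0 : r ≠ 0 := by
    rintro rfl
    rw [map_zero] at hr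
    exact hu0 (mul_self_eq_zero.1 hr.symm)
  obtain ⟨q, d, hq0, hdsq, hrq⟩ := sqfG r hr0
  have hqQ : algebraMap ℚ Qb q ≠ 0 := by
    rw [Ne, map_eq_zero]; exact hq0
  have hwL0 : u / algebraMap ℚ Qb q ∈ L := L.div_mem huL (L.algebraMap_mem q)
  have hws0 : s (u / algebraMap ℚ Qb q) = -(u / algebraMap ℚ Qb q) := by
    rw [map_div₀, hus, s.commutes, neg_div]
  have hw20 : (u / algebraMap ℚ Qb q) ^ 2 = (d : Qb) := by
    rw [div_pow, pow_two u, ← hr, hrq, map_mul, map_pow, mul_div_cancel_left₀ _ (pow_ne_zero 2 hqQ)]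
    simp
  have hw00 : u / algebraMap ℚ Qb q ≠ 0 := div_ne_zero hu0 hqQ
  generalize u / algebraMap ℚ Qb q = w at hwL0 hws0 hw20 hw00
  have hwint : IsIntegral ℤ w := by
    apply IsIntegral.of_pow (n := 2) (by norm_num)
    rw [hw20]
    exact isIntegral_algebraMap (R := ℤ) (A := Qb) (x := d) |> fun h => by simpa using h
  obtain ⟨W, hW⟩ : ∃ W : 𝓞 Qb, (W : Qb) = w := ⟨⟨w, hwint⟩, rfl⟩
  have hW2 : W ^ 2 = (d : 𝓞 Qb) := by
    apply RingOfIntegers.ext
    have : ((W ^ 2 : 𝓞 Qb) : Qb) = (W : Qb) ^ 2 := by simp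
    rw [this, hW, hw20]
    simp
  have hd1 : d ≠ 1 := by
    rintro rfl
    have h1 : w ^ 2 = 1 := by rw [hw20]; simp
    have h2 : s w = w := by
      rcases mul_self_eq_one_iff.1 ((pow_two w).symm.trans h1) with h | h
      · rw [h, map_one]
      · rw [h, map_neg, map_one]
    rw [hws0] at h2
    apply hw00
    have h3 : (2 : Qb) * w = 0 := by
      calc (2 : Qb) * w = w - -w := by ring
        _ = 0 := by rw [h2, sub_self]
    rcases mul_eq_zero.1 h3 with h | h
    · exact absurd h two_ne_zero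
    · exact h
  -- differences
  have hdiff : ∀ y : 𝓞 Qb, (y : Qb) ∈ L → ∃ m : ℤ, y - s • y = (m : 𝓞 Qb) * W := by
    intro y hy
    have hvL : (y : Qb) - s y ∈ L := L.sub_mem hy (hsL _ hy)
    have hvs : s ((y : Qb) - s y) = -((y : Qb) - s y) := by rw [map_sub, hssL _ hy]; ring
    have hvco : ((y - s • y : 𝓞 Qb) : Qb) = (y : Qb) - s y := rfl
    obtain ⟨z, hz⟩ := ratG (((y : Qb) - s y) / w) (hall _ (L.div_mem hvL hwL0) (by
      rw [map_div₀, hvs, hws0, neg_div_neg_eq]))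
    have hvz : (y : Qb) - s y = algebraMap ℚ Qb z * w := by
      rw [hz, div_mul_cancel₀ _ hw00]
    obtain ⟨k, hk⟩ : ∃ k : ℤ, (k : ℚ) = z ^ 2 * d := by
      apply ratIntG (z ^ 2 * d) ((y - s • y) ^ 2)
      have : (((y - s • y) ^ 2 : 𝓞 Qb) : Qb) = ((y : Qb) - s y) ^ 2 := by
        rw [← hvco]; simp
      rw [this, hvz, mul_pow, hw20]
      simp
    obtain ⟨m, hm⟩ := zintG z d k hdsq hk.symm
    refine ⟨m, ?_⟩
    apply RingOfIntegers.ext
    have : (((m : 𝓞 Qb) * W : 𝓞 Qb) : Qb) = (m : Qb) * w := by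
      rw [← hW]; simp
    rw [this, hvco, hvz, hm]
    simp
  -- (a)
  have hodd : ∀ q : ℕ, q.Prime → q ≠ 2 → (q : ℤ) ∣ d → q ∈ S := by
    intro q hq hq2 hqd
    by_contra hqS
    obtain ⟨P, hPm, hqP⟩ := exPG q hq
    have hWP : W ∈ P := by
      apply hPm.isPrime.mem_of_pow_mem 2
      obtain ⟨e, he⟩ := hqd
      rw [hW2, he]
      push_cast
      exact P.mul_mem_right _ hqP
    have hout : Out 2 S P := by
      refine ⟨hPm, ?_, ?_⟩
      · intro h2
        apply copG P hPm q 2 _ (by simpa using hqP) (by simpa using h2)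
        have := (Nat.coprime_primes hq Nat.prime_two).2 hq2
        exact_mod_cast Nat.isCoprime_iff_coprime.2 this
      · intro p hpS hpP
        rcases hS with hS | ⟨p', hp', -, hS⟩
        · rw [hS] at hpS; simp at hpS
        · have hpp : p = p' := by rw [hS] at hpS; simpa using hpS
          subst hpp
          have hne : q ≠ p := fun h => hqS (h ▸ hpS)
          apply copG P hPm q p _ (by simpa using hqP) (by simpa using hpP)
          exact Nat.isCoprime_iff_coprime.2 ((Nat.coprime_primes hq hp').2 hne)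
    obtain ⟨σ, hσ, hσs⟩ := hL ⊥ L bot_le (by
      intro g hg n hn
      rw [hLN] at hn ⊢
      exact hNn g hg n hn) P hPm s (hmem s) (by
      intro y hy
      obtain ⟨m, hm⟩ := hdiff y hy
      have : s • y - y = -((m : 𝓞 Qb) * W) := by rw [← hm]; ring
      rw [this]
      exact P.neg_mem (P.mul_mem_left _ hWP))
    rw [hLN] at hσs
    have hσN : σ ∈ N := hNr P hout hσ
    apply hs
    have : s = σ * (σ⁻¹ * s) := by group
    rw [this]
    exact N.mul_mem hσN hσs
  have hd8 := dmodG S hS d hdsq hd1 hodd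
  -- (b)
  have hP0s : ∀ y : 𝓞 Qb, (y : Qb) ∈ L → y ∈ P0 → s • y ∈ P0 := by
    intro y hy hyP
    have hsy : ((s • y : 𝓞 Qb) : Qb) = s (y : Qb) := rfl
    obtain ⟨t, ht⟩ := intG (y + s • y) (by
      intro g
      apply RingOfIntegers.ext
      have h1 : ((g • (y + s • y) : 𝓞 Qb) : Qb) = g ((y : Qb) + s y) := rfl
      have h2 : ((y + s • y : 𝓞 Qb) : Qb) = (y : Qb) + s y := rfl
      rw [h1, h2]
      exact hall _ (L.add_mem hy (hsL _ hy)) (by rw [map_add, hssL _ hy, add_comm]) g)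
    obtain ⟨n, hn⟩ := intG (y * s • y) (by
      intro g
      apply RingOfIntegers.ext
      have h1 : ((g • (y * s • y) : 𝓞 Qb) : Qb) = g ((y : Qb) * s y) := rfl
      have h2 : ((y * s • y : 𝓞 Qb) : Qb) = (y : Qb) * s y := rfl
      rw [h1, h2]
      exact hall _ (L.mul_mem hy (hsL _ hy)) (by rw [map_mul, hssL _ hy, mul_comm]) g)
    obtain ⟨m, hm⟩ := hdiff y hy
    have hrel : t ^ 2 - 4 * n = d * m ^ 2 := by
      have : ((t ^ 2 - 4 * n : ℤ) : 𝓞 Qb) = ((d * m ^ 2 : ℤ) : 𝓞 Qb) := by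
        push_cast
        rw [ht, hn, ← hW2]
        have h3 : (y + s • y) ^ 2 - 4 * (y * s • y) = (y - s • y) ^ 2 := by ring
        rw [h3, hm]
        ring
      exact Int.cast_injective this
    have hnP : (n : 𝓞 Qb) ∈ P0 := by rw [hn]; exact P0.mul_mem_right _ hyP
    have h2P : ((2 : ℤ) : 𝓞 Qb) ∈ P0 := by simpa using hl
    have hne : Even n := by
      by_contra hno
      rw [Int.not_even_iff_odd] at hno
      obtain ⟨a, ha⟩ := hno
      exact copG P0 hP0 n 2 ⟨1, -a, by rw [ha]; ring⟩ hnP h2P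
    have hte : Even t := by
      by_contra hto
      exact hd8 (mod8G d m t n hrel hne hto)
    obtain ⟨a, ha⟩ := hte
    have h4 : s • y = (t : 𝓞 Qb) - y := by rw [ht]; ring
    rw [h4, ha]
    apply P0.sub_mem _ hyP
    have : ((a + a : ℤ) : 𝓞 Qb) = (a : 𝓞 Qb) * ((2 : ℤ) : 𝓞 Qb) := by push_cast; ring
    rw [this]
    exact P0.mul_mem_left _ h2P
  have hsP0m : (s • P0).IsMaximal := by
    have h3 : Out 3 ∅ P0 := by
      refine ⟨hP0, ?_, by simp⟩
      intro h3
      exact copG P0 hP0 3 2 ⟨1, -1, by norm_num⟩ (by simpa using h3) (by simpa using hl)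
    exact ((hC P0).2.2.1 3 ∅ s h3).1
  obtain ⟨h, hhL, hh⟩ := (hP L).1 (s • P0) P0 hsP0m hP0 (by
    intro y hy
    rw [Ideal.mem_pointwise_smul_iff_inv_smul_mem]
    have hinv : s⁻¹ • y = s • y := by
      apply RingOfIntegers.ext
      have h1 : ((s⁻¹ • y : 𝓞 Qb) : Qb) = s⁻¹ (y : Qb) := rfl
      have h2 : ((s • y : 𝓞 Qb) : Qb) = s (y : Qb) := rfl
      rw [h1, h2]
      apply s.injective
      rw [hssL _ hy, ← AlgEquiv.mul_apply, mul_inv_cancel]
      rfl
    rw [hinv]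
    constructor
    · intro h
      have h5 := hP0s (s • y) (hsL _ hy) h
      have h6 : s • s • y = y := by
        apply RingOfIntegers.ext
        exact hssL _ hy
      rwa [h6] at h5
    · exact hP0s y hy)
  rw [hLN] at hhL
  have h7 : h * s ∈ Dec P0 := by
    rw [Dec, MulAction.mem_stabilizer_iff, mul_smul, hh]
  have h8 : h * s ∈ N := hD ⟨hmem _, h7⟩
  exact hs ((N.mul_mem_cancel_left hhL).1 h8)

end Pool.Agent.Helper42.RG
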